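import Pool.Agent.Helper6.AK.DGoals

/-! Packet AKD-TT. -/

namespace Pool.Agent.Helper80.AK

open Equiv Pool.Agent.Helper15.An Pool.Agent.Helper6.FixK
  Pool.Agent.Helper6.T5 Pool.Agent.Helper6.W

/-- A cycle with given support. -/
theorem exists_cycle {α : Type} [Fintype α] [DecidableEq α] (T : Finset α) (hT : 2 ≤ T.card) :
    ∃ σ : Perm α, σ.IsCycle ∧ σ.support = T := by
  classical
  have hl : T.toList.Nodup := T.nodup_toList
  have hlen : 2 ≤ T.toList.length := by rw [Finset.length_toList]; exact hT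
  refine ⟨T.toList.formPerm, List.isCycle_formPerm hl hlen, ?_⟩
  rw [List.support_formPerm_of_nodup _ hl, Finset.toList_toFinset]
  intro x hx
  rw [hx] at hlen
  simp at hlen

theorem thm : Pool.Agent.Helper6.AK.S_TT := by
  classical
  intro n k x t D c ht hc hD C₁ C₂ h1 h2 h1t h2t hdis
  obtain ⟨T, hT, hTc⟩ := exists_T c
  have hfix : fixc c + c.support.card = n := by
    unfold fixc
    have h := Finset.card_filter_add_card_filter_not (s := (Finset.univ : Finset (Fin n)))
      (fun x : Fin n => c x = x)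
    rw [Finset.card_univ, Fintype.card_fin] at h
    exact h
  have hTt : t ≤ T.card := by omega
  obtain ⟨T', hT'T, hT'c⟩ := Finset.exists_subset_card_eq hTt
  obtain ⟨σ, hσ, hσs⟩ := exists_cycle T' (by omega)
  have hdis2 : (c * σ * c⁻¹).Disjoint σ⁻¹ := by
    rw [Perm.disjoint_iff_disjoint_support, Perm.support_inv, Perm.support_conj, hσs,
      Finset.disjoint_left]
    intro y hy hy'
    rw [Finset.mem_map] at hy
    obtain ⟨z, hz, rfl⟩ := hy
    exact hT z (hT'T hz) (hT'T hy')
  have hct : ((c * σ * c⁻¹) * σ⁻¹).cycleType = (C₁ * C₂).cycleType := by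
    rw [hdis2.cycleType_mul, hdis.cycleType_mul, Perm.cycleType_conj, Perm.cycleType_inv,
      hσ.cycleType, h1.cycleType, h2.cycleType, hσs, hT'c, h1t, h2t]
  obtain ⟨π, hπ⟩ := isConj_iff.1 (Perm.isConj_iff_cycleType_eq.2 hct)
  have e : C₁ * C₂ = (π * c * π⁻¹) * ((π * σ) * c * (π * σ)⁻¹)⁻¹ := by
    rw [← hπ]
    group
  rw [e, two_mul]
  exact (hD π).mul (hD (π * σ)).inv

end Pool.Agent.Helper80.AK
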