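import Pool.Agent.Helper6.AK.DGoals
import Pool.Agent.Helper80.AK.TT

/-! Packet AKD-CYC. -/

namespace Pool.Agent.Helper80.AK.Cyc

open Equiv Pool.Agent.Helper15.An Pool.Agent.Helper6.FixK
  Pool.Agent.Helper6.T5 Pool.Agent.Helper6.W

theorem formPerm_split {α : Type} [DecidableEq α] (a : α) (l₂ : List α) : ∀ l₁ : List α,
    (l₁ ++ a :: l₂).formPerm = (l₁ ++ [a]).formPerm * (a :: l₂).formPerm := by
  intro l₁
  induction l₁ with
  | nil => simp
  | cons x l ih =>
    cases l with
    | nil => simp
    | cons y l =>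
      simp only [List.cons_append, List.formPerm_cons_cons] at ih ⊢
      rw [ih, mul_assoc]

theorem cyc_list {α : Type} [Fintype α] [DecidableEq α] {l : List α} (hl : l.Nodup)
    (h : 2 ≤ l.length) :
    l.formPerm.IsCycle ∧ l.formPerm.support = l.toFinset ∧ l.formPerm.support.card = l.length := by
  have hs : l.formPerm.support = l.toFinset := by
    apply List.support_formPerm_of_nodup _ hl
    intro x hx
    rw [hx] at h
    simp at h
  exact ⟨List.isCycle_formPerm hl h, hs, by rw [hs, List.toFinset_card_of_nodup hl]⟩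

theorem thm : Pool.Agent.Helper6.AK.S_CYC := by
  classical
  intro n k x t D ht hn hD C hC hCt
  obtain ⟨p, hp, -⟩ := id hC
  have hL1 : (Perm.toList C p).formPerm = C := by
    rw [Perm.formPerm_toList, hC.cycleOf_eq hp]
  have hLn : (Perm.toList C p).Nodup := Perm.nodup_toList C p
  have hLl : (Perm.toList C p).length + 1 = 2 * t := by
    rw [Perm.length_toList, hC.cycleOf_eq hp]
    exact hCt
  generalize Perm.toList C p = L at hL1 hLn hLl
  obtain ⟨l₁, a, l₂, hL, h1, h2⟩ : ∃ (l₁ : List (Fin n)) (a : Fin n) (l₂ : List (Fin n)),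
      L = l₁ ++ a :: l₂ ∧ l₁.length + 1 = t ∧ l₂.length + 1 = t := by
    have h3 := List.take_append_drop (t - 1) L
    have h4 : (L.drop (t - 1)).length = t := by rw [List.length_drop]; omega
    cases h5 : L.drop (t - 1) with
    | nil => rw [h5] at h4; simp at h4; omega
    | cons a l₂ =>
      refine ⟨L.take (t - 1), a, l₂, ?_, ?_, ?_⟩
      · rw [← h5]; exact h3.symm
      · rw [List.length_take]; omega
      · rw [h5, List.length_cons] at h4; exact h4
  subst hL
  have hn1 : (l₁ ++ [a]).Nodup := by
    have : (l₁ ++ [a]).Sublist (l₁ ++ a :: l₂) :=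
      List.Sublist.append (List.Sublist.refl _) (by simp)
    exact hLn.sublist this
  have hn2 : (a :: l₂).Nodup := hLn.sublist (List.sublist_append_right _ _)
  have hlen1 : (l₁ ++ [a]).length = t := by rw [List.length_append, List.length_singleton]; exact h1
  have hlen2 : (a :: l₂).length = t := by rw [List.length_cons]; exact h2
  obtain ⟨c1, s1, k1⟩ := cyc_list hn1 (by omega)
  obtain ⟨c3, s3, k3⟩ := cyc_list hn2 (by omega)
  -- the additional cycle
  have hU : t ≤ ((l₁ ++ a :: l₂).toFinsetᶜ).card := by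
    rw [Finset.card_compl, List.toFinset_card_of_nodup hLn, Fintype.card_fin]
    omega
  obtain ⟨U, hUs, hUc⟩ := Finset.exists_subset_card_eq hU
  obtain ⟨C₂, c2, s2⟩ := exists_cycle U (by omega)
  have hd1 : (l₁ ++ [a]).formPerm.Disjoint C₂ := by
    rw [Perm.disjoint_iff_disjoint_support, s1, s2, Finset.disjoint_left]
    intro y hy hy'
    have h6 := hUs hy'
    rw [Finset.mem_compl, List.mem_toFinset] at h6
    apply h6
    rw [List.mem_toFinset] at hy
    simp only [List.mem_append, List.mem_singleton, List.mem_cons] at hy ⊢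
    tauto
  have hd3 : C₂⁻¹.Disjoint (a :: l₂).formPerm := by
    rw [Perm.disjoint_iff_disjoint_support, Perm.support_inv, s3, s2, Finset.disjoint_left]
    intro y hy' hy
    have h6 := hUs hy'
    rw [Finset.mem_compl, List.mem_toFinset] at h6
    apply h6
    rw [List.mem_toFinset] at hy
    simp only [List.mem_append, List.mem_cons] at hy ⊢
    tauto
  have r1 := hD _ C₂ c1 c2 (by rw [k1, hlen1]) (by rw [s2, hUc]) hd1
  have r2 := hD C₂⁻¹ _ c2.inv c3 (by rw [Perm.support_inv, s2, hUc]) (by rw [k3, hlen2]) hd3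
  have e : C = ((l₁ ++ [a]).formPerm * C₂) * (C₂⁻¹ * (a :: l₂).formPerm) := by
    rw [← hL1, formPerm_split]
    group
  rw [e, two_mul]
  exact r1.mul r2

end Pool.Agent.Helper80.AK.Cyc
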