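import Pool.Agent.Helper6.AK.DGoals

/-! Packet AKD-DIAM. -/

namespace Pool.Agent.Helper80.AK.Dia

open Equiv Filter Topology Pool.Agent.Helper15.An Pool.Agent.Helper6.FixK
  Pool.Agent.Helper6.T5 Pool.Agent.Helper6.W Pool.Agent.Helper6.AK

theorem TupleGap.mono {n k r : ℕ} {x : Fin k → Alt n} {ε ε' : ℝ} (h : TupleGap x r ε)
    (hε : ε' ≤ ε) : TupleGap x r ε' := by
  intro φ hφ
  refine (h φ hφ).trans ?_
  have : 0 ≤ ∑ a, φ a ^ 2 := Finset.sum_nonneg fun a _ => sq_nonneg _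
  nlinarith

/-- the number of tuples whose first two coordinates are in a given set -/
theorem card_pairs {A : Type} [Fintype A] (k : ℕ) (P : A × A → Prop) :
    Nat.card {x : Fin (k + 2) → A // P (x 0, x 1)} ≤
      Nat.card {b : A × A // P b} * (Fintype.card A) ^ k := by
  classical
  have h1 : Nat.card ({b : A × A // P b} × (Fin k → A)) =
      Nat.card {b : A × A // P b} * (Fintype.card A) ^ k := by
    rw [Nat.card_prod, Nat.card_eq_fintype_card (α := Fin k → A), Fintype.card_fun,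
      Fintype.card_fin]
  rw [← h1]
  refine Nat.card_le_card_of_injective
    (fun x : {x : Fin (k + 2) → A // P (x 0, x 1)} =>
      ((⟨(x.1 0, x.1 1), x.2⟩ : {b : A × A // P b}), fun i : Fin k => x.1 i.succ.succ)) ?_
  rintro ⟨x, hx⟩ ⟨y, hy⟩ hxy
  simp only [Prod.mk.injEq, Subtype.mk.injEq] at hxy
  obtain ⟨⟨h2, h3⟩, h4⟩ := hxy
  rw [Subtype.mk.injEq]
  funext i
  refine Fin.cases h2 (fun j => ?_) i
  refine Fin.cases h3 (fun l => ?_) j
  exact congrFun h4 l

theorem thm (hdet : Pool.Agent.Helper6.AK.S_DET) (hhit : Pool.Agent.Helper6.AK.S_HIT) :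
    Pool.Agent.Helper6.AK.S_DIAM := by
  classical
  intro k hk α hα0 hα1 h δ hδ
  obtain ⟨ε, hε, hlim⟩ := h
  obtain ⟨e, he, he1, hdet'⟩ := hdet k hk α hα0 hα1 (min ε 1) (lt_min hε one_pos)
    (min_le_right _ _) δ hδ
  have hhit' := hhit e he he1
  obtain ⟨k', rfl⟩ : ∃ k', k = k' + 2 := ⟨k - 2, by omega⟩
  -- lower bound
  have hlow : ∀ᶠ n : ℕ in atTop,
      (Nat.card {x : Fin (k' + 2) → Alt n // ∀ r : ℕ, (r : ℝ) ≤ (n : ℝ) ^ α →
        TupleGap x r ε} : ℝ) / Nat.card (Fin (k' + 2) → Alt n) - 50 * (n : ℝ) ^ (-e) ≤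
      (Nat.card {x : Fin (k' + 2) → Alt n // SmallDiam x ((n : ℝ) ^ (2 - α + δ))} : ℝ) /
        Nat.card (Fin (k' + 2) → Alt n) := by
    filter_upwards [hdet', hhit'] with n h1 h2
    have hA0 : 0 < Fintype.card (Alt n) := Fintype.card_pos
    have hA : (0 : ℝ) < Fintype.card (Alt n) := by exact_mod_cast hA0
    have hcard : (Nat.card (Fin (k' + 2) → Alt n) : ℝ) =
        (Fintype.card (Alt n) : ℝ) ^ k' * (Fintype.card (Alt n) : ℝ) ^ 2 := by
      rw [Nat.card_eq_fintype_card, Fintype.card_fun, Fintype.card_fin]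
      push_cast
      rw [pow_add]
    set Bad : Alt n × Alt n → Prop := fun b => ∀ j < ⌈(n : ℝ) ^ (2 * e)⌉₊,
      b.1 * b.2 ^ j ∉ EcS n ⌊(n : ℝ) ^ (1 - e)⌋₊ with hBad
    -- covering
    have hcov : Nat.card {x : Fin (k' + 2) → Alt n // ∀ r : ℕ, (r : ℝ) ≤ (n : ℝ) ^ α →
        TupleGap x r ε} ≤
        Nat.card {x : Fin (k' + 2) → Alt n // SmallDiam x ((n : ℝ) ^ (2 - α + δ))} +
        Nat.card {x : Fin (k' + 2) → Alt n // Bad (x 0, x 1)} := by
      rw [Nat.card_eq_fintype_card, Nat.card_eq_fintype_card, Nat.card_eq_fintype_card,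
        Fintype.card_subtype, Fintype.card_subtype, Fintype.card_subtype]
      refine (Finset.card_le_card ?_).trans (Finset.card_union_le _ _)
      intro x hx
      simp only [Finset.mem_union, Finset.mem_filter, Finset.mem_univ, true_and] at hx ⊢
      by_contra hcon
      push Not at hcon
      obtain ⟨h3, h4⟩ := hcon
      apply h3
      refine h1 x (fun r hr => TupleGap.mono (hx r hr) (min_le_left _ _)) ?_
      rw [hBad] at h4
      push Not at h4
      exact h4
    have hbad := card_pairs (A := Alt n) k' Bad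
    have hbad' : (Nat.card {x : Fin (k' + 2) → Alt n // Bad (x 0, x 1)} : ℝ) ≤
        (Fintype.card (Alt n) : ℝ) ^ 2 * (50 * (n : ℝ) ^ (-e)) * (Fintype.card (Alt n) : ℝ) ^ k' := by
      have h5 : (Nat.card {x : Fin (k' + 2) → Alt n // Bad (x 0, x 1)} : ℝ) ≤
          (Nat.card {b : Alt n × Alt n // Bad b} : ℝ) * (Fintype.card (Alt n) : ℝ) ^ k' := by
        exact_mod_cast hbad
      exact h5.trans (mul_le_mul_of_nonneg_right h2 (by positivity))
    have hN : (Fintype.card (Alt n) : ℝ) ^ k' * (Fintype.card (Alt n) : ℝ) ^ 2 ≠ 0 := by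
      positivity
    rw [hcard, sub_le_iff_le_add, div_add' _ _ _ hN]
    refine div_le_div_of_nonneg_right ?_ (by positivity)
    have h6 : (Nat.card {x : Fin (k' + 2) → Alt n // ∀ r : ℕ, (r : ℝ) ≤ (n : ℝ) ^ α →
        TupleGap x r ε} : ℝ) ≤
        Nat.card {x : Fin (k' + 2) → Alt n // SmallDiam x ((n : ℝ) ^ (2 - α + δ))} +
        Nat.card {x : Fin (k' + 2) → Alt n // Bad (x 0, x 1)} := by exact_mod_cast hcov
    calc _ ≤ _ := h6
      _ ≤ (Nat.card {x : Fin (k' + 2) → Alt n // SmallDiam x ((n : ℝ) ^ (2 - α + δ))} : ℝ) +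
          (Fintype.card (Alt n) : ℝ) ^ 2 * (50 * (n : ℝ) ^ (-e)) *
            (Fintype.card (Alt n) : ℝ) ^ k' := by gcongr
      _ = _ := by ring
  have hz : Tendsto (fun n : ℕ => 50 * (n : ℝ) ^ (-e)) atTop (𝓝 0) := by
    have := (tendsto_rpow_neg_atTop he).comp tendsto_natCast_atTop_atTop
    simpa using this.const_mul 50
  have hlow' := hlim.sub hz
  rw [sub_zero] at hlow'
  refine tendsto_of_tendsto_of_tendsto_of_le_of_le' hlow' tendsto_const_nhds hlow ?_
  refine Eventually.of_forall fun n => ?_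
  refine div_le_one_of_le₀ ?_ (Nat.cast_nonneg _)
  have : Nat.card {x : Fin (k' + 2) → Alt n // SmallDiam x ((n : ℝ) ^ (2 - α + δ))} ≤
      Nat.card (Fin (k' + 2) → Alt n) :=
    Nat.card_le_card_of_injective Subtype.val Subtype.val_injective
  exact_mod_cast this

end Pool.Agent.Helper80.AK.Dia
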